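import Pool.Agent.PCS.Stmts
import Pool.Agent.Helper50_CIG.Count

/-!
Squad PCS, row CNT: counting the ball.
-/

open scoped Pointwise

namespace Pool.Agent.PCS.H28

open Pool.Agent.H50.CIG

variable {Γ V : Type} [Group Γ] [MulAction Γ V]

/-- products of `r` elements meet few labels of positive rank -/
theorem bad (S : Finset Γ) (rk : Γ → V → ℕ) (u : V) (hfin : (MulAction.orbit Γ u).Finite) :
    ∀ (r : ℕ) (g : Γ), g ∈ ball S r → ∃ B : Set V, B ⊆ MulAction.orbit Γ u ∧
      B.ncard ≤ r * ah S rk 1 u ∧ ∀ w ∈ MulAction.orbit Γ u, w ∉ B → g ∈ Dn S rk r w := by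
  intro r
  induction r with
  | zero =>
    intro g hg
    refine ⟨∅, Set.empty_subset _, by simp, ?_⟩
    intro w _ _
    have hg' : g ∈ (S : Set Γ) ^ 0 := hg
    rw [pow_zero] at hg'
    exact hg'
  | succ r ih =>
    intro g hg
    have hg' : g ∈ (S : Set Γ) ^ (r + 1) := hg
    rw [pow_succ'] at hg'
    obtain ⟨s, hs, h, hh, rfl⟩ := Set.mem_mul.mp hg'
    obtain ⟨B, hB1, hB2, hB3⟩ := ih h hh
    refine ⟨B ∪ {w | w ∈ MulAction.orbit Γ u ∧ 1 ≤ rk s (h • w)}, ?_, ?_, ?_⟩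
    · intro w hw
      rcases hw with hw | hw
      · exact hB1 hw
      · exact hw.1
    · have h1 : {w : V | w ∈ MulAction.orbit Γ u ∧ 1 ≤ rk s (h • w)}.ncard ≤
          {w : V | w ∈ MulAction.orbit Γ u ∧ 1 ≤ rk s w}.ncard := by
        refine Set.ncard_le_ncard_of_injOn (fun w => h • w) ?_ ?_ (hfin.subset fun w hw => hw.1)
        · intro w hw
          refine ⟨?_, hw.2⟩
          obtain ⟨k, rfl⟩ := hw.1
          exact ⟨h * k, mul_smul h k u⟩
        · intro a _ b _ hab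
          exact smul_left_cancel h hab
      have h2 : {w : V | w ∈ MulAction.orbit Γ u ∧ 1 ≤ rk s w}.ncard ≤ ah S rk 1 u := by
        unfold ah
        exact Finset.single_le_sum
          (f := fun s => {w : V | w ∈ MulAction.orbit Γ u ∧ 1 ≤ rk s w}.ncard)
          (fun _ _ => Nat.zero_le _) (Finset.mem_coe.mp hs)
      calc _ ≤ B.ncard + {w : V | w ∈ MulAction.orbit Γ u ∧ 1 ≤ rk s (h • w)}.ncard :=
            Set.ncard_union_le _ _
        _ ≤ r * ah S rk 1 u + ah S rk 1 u := Nat.add_le_add hB2 (h1.trans h2)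
        _ = (r + 1) * ah S rk 1 u := by ring
    · intro w hw hwB
      have hw1 : w ∉ B := fun h0 => hwB (Or.inl h0)
      have hw2 : ¬ 1 ≤ rk s (h • w) := fun h0 => hwB (Or.inr ⟨hw, h0⟩)
      exact ⟨s, Finset.mem_coe.mp hs, h, hB3 w hw hw1, by omega, rfl⟩

theorem dn_mono (S : Finset Γ) (rk : Γ → V → ℕ) (h1 : (1 : Γ) ∈ S) (h0 : ∀ v, rk 1 v = 0) (u : V)
    {r t : ℕ} (hrt : r ≤ t) : Dn S rk r u ⊆ Dn S rk t u := by
  induction t, hrt using Nat.le_induction with
  | base => exact subset_rfl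
  | succ t _ ih =>
    intro g hg
    exact ⟨1, h1, g, ih hg, h0 _, (one_mul g).symm⟩

theorem cnt (hLEV : LevStmt) (hITP : ItpStmt) : CntStmt := by
  intro Γ V _ _ T S rk R K q hS r j v hr hj hloc hlt
  classical
  obtain ⟨hI1, -, -, -, -, -⟩ := hITP Γ V T
  obtain ⟨-, hL⟩ := hLEV Γ V T
  have hOfin : (MulAction.orbit Γ v).Finite := (hL v).1
  have hUfin : (MulAction.orbit Γ (T.par^[K * j] v)).Finite := (hL _).1
  have hlv : ∀ w ∈ MulAction.orbit Γ v, K * j ≤ T.lv w := by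
    rintro _ ⟨k, rfl⟩
    show K * j ≤ T.lv (k • v)
    rw [T.lv_smul]
    exact hj
  obtain ⟨γ0, -⟩ := hS.con j v hj
  have : Nonempty (Γ → Fin q) := ⟨γ0⟩
  have : Nonempty V := ⟨v⟩
  choose! γ hγ using hS.con j
  have key : ∀ g ∈ ball S r, ∃ w ∈ MulAction.orbit Γ v, g ∈ Dn S rk (2 ^ j) (T.par^[K * j] w) := by
    intro g hg
    obtain ⟨B, hB1, hB2, hB3⟩ := bad S rk (T.par^[K * j] v) hUfin r g hg
    have h1 : ∃ w ∈ MulAction.orbit Γ (T.par^[K * j] v), w ∉ B := by
      by_contra hcon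
      push Not at hcon
      have h2 := Set.ncard_le_ncard (show MulAction.orbit Γ (T.par^[K * j] v) ⊆ B from hcon)
        (hUfin.subset hB1)
      have h3 : N Γ (T.par^[K * j] v) ≤ B.ncard := h2
      omega
    obtain ⟨w, ⟨k, rfl⟩, hwB⟩ := h1
    refine ⟨k • v, ⟨k, rfl⟩, ?_⟩
    rw [hI1]
    exact dn_mono S rk hS.one_mem hS.rank.one _ hr (hB3 _ ⟨k, rfl⟩ hwB)
  choose! w hwO hwD using key
  have hfc : (fc Γ : Set Γ).Finite := fc_finite hS.nci
  have hinv : ∀ g ∈ ball S r, g⁻¹ ∈ ball S r := by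
    intro g hg
    have h1 : (S : Set Γ)⁻¹ = (S : Set Γ) := by
      ext x
      rw [Set.mem_inv]
      constructor
      · intro hx
        have := hS.inv_mem _ (Finset.mem_coe.mp hx)
        rwa [inv_inv] at this
      · intro hx
        exact hS.inv_mem _ (Finset.mem_coe.mp hx)
    have h2 : g⁻¹ ∈ ((S : Set Γ) ^ r)⁻¹ := Set.inv_mem_inv.mpr hg
    rw [← inv_pow, h1] at h2
    exact h2
  have hB : ball S r = ((S ^ r : Finset Γ) : Set Γ) := (Finset.coe_pow S r).symm
  have hmem : ∀ g, g ∈ S ^ r ↔ g ∈ ball S r := by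
    intro g
    rw [hB, Finset.mem_coe]
  have h3 := card_le_mul_image (S ^ r) hfc.toFinset
    (fun g : Γ => ((w g, g • w g, γ (w g) g) : V × V × Fin q)) (by
    intro a ha b hb hab
    rw [hmem] at ha hb
    rw [Set.Finite.mem_toFinset]
    have e1 : w a = w b := congrArg (fun p : V × V × Fin q => p.1) hab
    have e2 : a • w a = b • w b := congrArg (fun p : V × V × Fin q => p.2.1) hab
    have e3 : γ (w a) a = γ (w b) b := congrArg (fun p : V × V × Fin q => p.2.2) hab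
    rw [← e1] at e2 e3
    have hbD := hwD b hb
    rw [← e1] at hbD
    have h4 := hγ (w a) (hlv _ (hwO a ha)) a (hwD a ha) b hbD e2 e3
    refine hloc (w a) (hwO a ha) _ ?_ h4
    show a⁻¹ * b ∈ (S : Set Γ) ^ (2 * r)
    rw [two_mul, pow_add]
    exact Set.mul_mem_mul (hinv a ha) hb)
  have h4 : ((S ^ r).image (fun g : Γ => ((w g, g • w g, γ (w g) g) : V × V × Fin q))).card ≤
      N Γ v * (N Γ v * q) := by
    have h5 : (S ^ r).image (fun g : Γ => ((w g, g • w g, γ (w g) g) : V × V × Fin q)) ⊆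
        hOfin.toFinset ×ˢ (hOfin.toFinset ×ˢ (Finset.univ : Finset (Fin q))) := by
      intro p hp
      obtain ⟨g, hg, rfl⟩ := Finset.mem_image.mp hp
      rw [hmem] at hg
      rw [Finset.mem_product, Finset.mem_product, Set.Finite.mem_toFinset, Set.Finite.mem_toFinset]
      refine ⟨hwO g hg, ?_, Finset.mem_univ _⟩
      obtain ⟨k, hk⟩ := hwO g hg
      refine ⟨g * k, ?_⟩
      show (g * k) • v = g • w g
      rw [mul_smul, ← hk]
    have h6 := Finset.card_le_card h5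
    rw [Finset.card_product, Finset.card_product, Finset.card_univ, Fintype.card_fin,
      ← Set.ncard_eq_toFinset_card _ hOfin] at h6
    exact h6
  rw [hB, Set.ncard_coe_finset]
  rw [← Set.ncard_eq_toFinset_card _ hfc] at h3
  have h7 : (fc Γ : Set Γ).ncard = Nat.card (fc Γ) := rfl
  rw [h7] at h3
  calc (S ^ r).card ≤ _ := h3
    _ ≤ Nat.card (fc Γ) * (N Γ v * (N Γ v * q)) := Nat.mul_le_mul_left _ h4
    _ = _ := by ring

end Pool.Agent.PCS.H28
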